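import Mathlib

set_option autoImplicit false

namespace Pool.Agent.W577.RD.Ana

open Filter Topology

noncomputable section

lemma ev_pow (k : ℕ) (c A : ℝ) (hc : 0 < c) : ∀ᶠ t : ℝ in atTop, A * t ^ k ≤ Real.exp (c * t) := by
  have h1 := Real.tendsto_pow_mul_exp_neg_atTop_nhds_zero k
  have h2 : Tendsto (fun t : ℝ => c * t) atTop atTop := tendsto_id.const_mul_atTop hc
  have h3 := h1.comp h2
  have h4 : Tendsto (fun t : ℝ => A * (1 / c ^ k) * ((c * t) ^ k * Real.exp (-(c * t)))) atTop (𝓝 (A * (1 / c ^ k) * 0)) :=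
    h3.const_mul _
  rw [mul_zero] at h4
  filter_upwards [h4.eventually_le_const (show (0:ℝ) < 1 by norm_num)] with t ht
  have e1 : A * (1 / c ^ k) * ((c * t) ^ k * Real.exp (-(c * t))) =
      A * t ^ k * Real.exp (-(c * t)) := by
    rw [mul_pow]
    field_simp
  rw [e1, Real.exp_neg, ← div_eq_mul_inv, div_le_one (Real.exp_pos _)] at ht
  exact ht

theorem ana : ∃ X0 : ℝ, ∀ X : ℝ, X0 ≤ X → ∀ w N l2 : ℕ,
  (w : ℝ) ≤ Real.log X ^ ((1 : ℝ) / 3) / (10 * Real.log (Real.log X)) →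
  (l2 : ℝ) ≤ 2 * Real.log X → (N : ℝ) ≤ 2 * Real.log X + 2 →
  ∀ P : ℝ, Real.exp (Real.log X ^ ((1 : ℝ) / 3)) / 2 ≤ P →
  N * (X / P * (w * (2 * Real.sqrt P)) +
    X / P * ((8 * (w + 1) + 1) * (8 * (w + 1) * (l2 + 1) + 1) ^ (w + 1))) ≤
    X * Real.exp (-(Real.log X ^ ((1 : ℝ) / 3) / 90)) := by
  have hT : ∃ T : ℝ, ∀ t : ℝ, T ≤ t → 32 ≤ t ∧ 32 * t ^ 4 ≤ Real.exp (1 / 4 * t) ∧
      144 * t ^ 9 ≤ Real.exp (1 / 2 * t) := by
    have h := (eventually_ge_atTop (32:ℝ)).and ((ev_pow 4 (1 / 4) 32 (by norm_num)).and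
      (ev_pow 9 (1 / 2) 144 (by norm_num)))
    exact eventually_atTop.mp h
  obtain ⟨T, hT⟩ := hT
  have hTt : Tendsto (fun X : ℝ => Real.log X ^ ((1 : ℝ) / 3)) atTop atTop :=
    (tendsto_rpow_atTop (by norm_num)).comp Real.tendsto_log_atTop
  obtain ⟨X1, hX1⟩ := eventually_atTop.mp (hTt.eventually_ge_atTop T)
  refine ⟨max X1 3, ?_⟩
  intro X hX w N l2 hw hl2 hN P hP
  have hX3 : 3 ≤ X := (le_max_right _ _).trans hX
  have hXp : 0 < X := by linarith
  have hLp : 0 ≤ Real.log X := Real.log_nonneg (by linarith)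
  obtain ⟨ht32, hA, hB⟩ := hT _ (hX1 X ((le_max_left _ _).trans hX))
  set t : ℝ := Real.log X ^ ((1 : ℝ) / 3) with ht
  have hL : Real.log X = t ^ 3 := by
    rw [ht, ← Real.rpow_natCast, ← Real.rpow_mul hLp]
    norm_num
  rw [hL] at hw hl2 hN
  have ht0 : 0 < t := by linarith
  have hlt : 1 ≤ Real.log t := by
    rw [Real.le_log_iff_exp_le ht0]
    have := Real.exp_one_lt_d9
    linarith
  have hlog3 : Real.log (t ^ 3) = 3 * Real.log t := by
    rw [Real.log_pow]; norm_num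
  rw [hlog3] at hw
  have hw1 : (w:ℝ) * (30 * Real.log t) ≤ t := by
    rw [show 10 * (3 * Real.log t) = 30 * Real.log t by ring, le_div_iff₀ (by positivity)] at hw
    exact hw
  have hw0 : (0:ℝ) ≤ w := Nat.cast_nonneg _
  have hw2 : (w:ℝ) + 1 ≤ t := by nlinarith
  have hl0 : (0:ℝ) ≤ l2 := Nat.cast_nonneg _
  have hN0 : (0:ℝ) ≤ N := Nat.cast_nonneg _
  have ht3 : 1 ≤ t ^ 3 := one_le_pow₀ (by linarith)
  have hN1 : (N:ℝ) ≤ 4 * t ^ 3 := by linarith
  have hPp : 0 < P := lt_of_lt_of_le (by positivity) hP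
  -- the base
  have hbase : 8 * ((w:ℝ) + 1) * (l2 + 1) + 1 ≤ t ^ 5 := by
    have e1 : ((w:ℝ) + 1) * (l2 + 1) ≤ t * (2 * t ^ 3 + 1) :=
      mul_le_mul hw2 (by linarith) (by linarith) ht0.le
    have e2 : t * (2 * t ^ 3 + 1) ≤ 3 * t ^ 4 := by nlinarith
    have e3 : 32 * t ^ 4 ≤ t ^ 5 := by
      have : t ^ 5 = t * t ^ 4 := by ring
      rw [this]
      exact mul_le_mul_of_nonneg_right ht32 (by positivity)
    have e4 : 1 ≤ t ^ 4 := one_le_pow₀ (by linarith)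
    linarith
  have hpow : (8 * ((w:ℝ) + 1) * (l2 + 1) + 1) ^ (w + 1) ≤ t ^ 5 * Real.exp (t / 6) := by
    refine (pow_le_pow_left₀ (by positivity) hbase _).trans ?_
    rw [pow_succ, mul_comm]
    apply mul_le_mul_of_nonneg_left _ (by positivity)
    have e1 : t ^ 5 = Real.exp (5 * Real.log t) := by
      rw [mul_comm, Real.exp_mul, Real.exp_log ht0]
      norm_num
    rw [e1, ← Real.exp_nat_mul]
    apply Real.exp_le_exp.mpr
    linarith
  have hexp0 := Real.exp_pos (-t)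
  -- 1 / P
  have hinv : 1 / P ≤ 2 * Real.exp (-t) := by
    rw [div_le_iff₀ hPp, Real.exp_neg]
    have : Real.exp t ≤ 2 * P := by linarith
    have he := Real.exp_pos t
    calc (1:ℝ) = (Real.exp t)⁻¹ * Real.exp t := by field_simp
      _ ≤ (Real.exp t)⁻¹ * (2 * P) := mul_le_mul_of_nonneg_left this (by positivity)
      _ = _ := by ring
  -- sqrt P
  have hsP : 0 < Real.sqrt P := Real.sqrt_pos.mpr hPp
  have hs2 : Real.sqrt P / P = 1 / Real.sqrt P := by
    rw [div_eq_div_iff hPp.ne' hsP.ne', one_mul, Real.mul_self_sqrt hPp.le]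
  have hs3 : 1 / Real.sqrt P ≤ 2 * Real.exp (-(t / 2)) := by
    have e1 : (1 / Real.sqrt P) ^ 2 ≤ (2 * Real.exp (-(t / 2))) ^ 2 := by
      rw [div_pow, Real.sq_sqrt hPp.le, mul_pow, ← Real.exp_nat_mul]
      have e2 : ((2:ℕ):ℝ) * -(t / 2) = -t := by push_cast; ring
      rw [e2]
      have : (1:ℝ) ^ 2 / P = 1 / P := by norm_num
      rw [this]
      linarith
    exact (sq_le_sq₀ (by positivity) (by positivity)).mp e1
  have hfirst : (N:ℝ) * (X / P * (w * (2 * Real.sqrt P))) ≤ X * (16 * t ^ 4 * Real.exp (-(t / 2))) := by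
    have e1 : (N:ℝ) * (X / P * (w * (2 * Real.sqrt P))) = X * (N * w * 2 * (Real.sqrt P / P)) := by
      field_simp
    rw [e1, hs2]
    apply mul_le_mul_of_nonneg_left _ hXp.le
    have e2 : (N:ℝ) * w * 2 ≤ 8 * t ^ 4 := by
      have : (N:ℝ) * w ≤ (4 * t ^ 3) * t := mul_le_mul hN1 (by linarith) hw0 (by positivity)
      nlinarith
    calc (N:ℝ) * w * 2 * (1 / Real.sqrt P) ≤ 8 * t ^ 4 * (2 * Real.exp (-(t / 2))) :=
          mul_le_mul e2 hs3 (by positivity) (by positivity)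
      _ = _ := by ring
  have hsecond : (N:ℝ) * (X / P * ((8 * (w + 1) + 1) * (8 * (w + 1) * (l2 + 1) + 1) ^ (w + 1))) ≤
      X * (72 * t ^ 9 * Real.exp (-(5 / 6 * t))) := by
    have e1 : (N:ℝ) * (X / P * ((8 * (w + 1) + 1) * (8 * (w + 1) * (l2 + 1) + 1) ^ (w + 1))) =
        X * ((N * (1 / P)) * ((8 * (w + 1) + 1) * (8 * (w + 1) * (l2 + 1) + 1) ^ (w + 1))) := by
      ring
    rw [e1]
    apply mul_le_mul_of_nonneg_left _ hXp.le
    have e2 : (N:ℝ) * (1 / P) ≤ 4 * t ^ 3 * (2 * Real.exp (-t)) :=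
      mul_le_mul hN1 hinv (by positivity) (by positivity)
    have e3 : (8 * ((w:ℝ) + 1) + 1) ≤ 9 * t := by linarith
    have e4 : (8 * ((w:ℝ) + 1) + 1) * (8 * (w + 1) * (l2 + 1) + 1) ^ (w + 1) ≤
        9 * t * (t ^ 5 * Real.exp (t / 6)) :=
      mul_le_mul e3 hpow (by positivity) (by positivity)
    calc _ ≤ 4 * t ^ 3 * (2 * Real.exp (-t)) * (9 * t * (t ^ 5 * Real.exp (t / 6))) :=
          mul_le_mul e2 e4 (by positivity) (by positivity)
      _ = 72 * t ^ 9 * (Real.exp (-t) * Real.exp (t / 6)) := by ring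
      _ = _ := by
          rw [← Real.exp_add]
          congr 2
          ring
  have hf2 : 16 * t ^ 4 * Real.exp (-(t / 2)) ≤ 1 / 2 * Real.exp (-(t / 90)) := by
    have e1 : Real.exp (1 / 4 * t) * Real.exp (-(t / 2)) ≤ Real.exp (-(t / 90)) := by
      rw [← Real.exp_add]
      apply Real.exp_le_exp.mpr
      linarith
    have e2 := mul_le_mul_of_nonneg_right hA (Real.exp_pos (-(t / 2))).le
    linarith
  have hg2 : 72 * t ^ 9 * Real.exp (-(5 / 6 * t)) ≤ 1 / 2 * Real.exp (-(t / 90)) := by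
    have e1 : Real.exp (1 / 2 * t) * Real.exp (-(5 / 6 * t)) ≤ Real.exp (-(t / 90)) := by
      rw [← Real.exp_add]
      apply Real.exp_le_exp.mpr
      linarith
    have e2 := mul_le_mul_of_nonneg_right hB (Real.exp_pos (-(5 / 6 * t))).le
    linarith
  have f1 := mul_le_mul_of_nonneg_left hf2 hXp.le
  have g1 := mul_le_mul_of_nonneg_left hg2 hXp.le
  rw [mul_add]
  linarith

end

end Pool.Agent.W577.RD.Ana
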